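import Mathlib
import Pool.Agent.H91.BlowUp

set_option autoImplicit false

namespace Pool.Agent.Results.MP_f5651a_an.Q1Fails

open Filter Topology

theorem result :
    ¬ ∀ (E : Type) [NormedAddCommGroup E] [NormedSpace ℝ E] [CompleteSpace E] (m : ℕ) (F : E → ℝ),
      1 ≤ m →
      (∀ x₀ h₀ : E, ∃ a : ℕ → ℝ, ∀ t : ℚ,
        F (x₀ + (t : ℝ) • h₀) = ∑ k ∈ Finset.range (m + 1), a k * (t : ℝ) ^ k) →
      ¬ Continuous F →
      ∃ x : ℕ → E, Tendsto x atTop (𝓝 0) ∧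
        ∀ y : E, Tendsto (fun n => |F (x n + y)|) atTop atTop := by
  intro h
  open Pool.Agent.H91.BlowUp in
  obtain ⟨τ, hτ⟩ := exists_tau
  open Pool.Agent.H91.BlowUp in
  obtain ⟨x, hx, hy⟩ := h E 2 (F B0 τ) (by norm_num) (F_deg B0 τ) (not_cont B0 τ hτ)
  open Pool.Agent.H91.BlowUp in
  obtain ⟨y, hy'⟩ := no_blowup B0 τ hτ x hx
  exact hy' (hy y)

end Pool.Agent.Results.MP_f5651a_an.Q1Fails
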